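import Pool.Agent.Lib.MP_21a058_co.CycleL

/-! A lower bound from a thick ring of blocks (half edges of multiplicity `b`, full edges of
multiplicity `2 b`, connectivity `4 b`): `5 k ≥ 5 S + 3 p + 2 t - 15`. Block `i`: `c, a, a', m, m',
e, e', g` = `0, …, 7`. -/

set_option autoImplicit false

namespace Pool.Agent.Lib.MP_21a058_co.Neck21

open Finset Pool.Agent.Lib.MP_21a058_co

/-- First ends in the block. -/
def pA (j : Fin 11) : Fin 8 := ![1, 1, 2, 5, 5, 6, 1, 3, 2, 4, 7] j

/-- Second ends in the block (edge 10 ends in the next block). -/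
def pB (j : Fin 11) : Fin 8 := ![2, 0, 0, 6, 7, 7, 3, 5, 4, 6, 0] j

def mu (b : ℕ) (j : Fin 11) : ℕ := if j.val < 6 then b else 2 * b

theorem ne : ∀ j, pA j ≠ pB j := by decide

abbrev Ed (n b : ℕ) : Type := Fin (n + 2) × (Σ j : Fin 11, Fin (mu b j))

def eA (n b : ℕ) (e : Ed n b) : Fin (n + 2) × Fin 8 := (e.1, pA e.2.1)

def eB (n b : ℕ) (e : Ed n b) : Fin (n + 2) × Fin 8 :=
  (if e.2.1 = 10 then e.1 + 1 else e.1, pB e.2.1)

/-- The part of the cut in one block; `c'` is the side of the next `c`. -/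
def blk (y : Fin 11 → ℕ) (s : Fin 8 → Bool) (c' : Bool) : ℕ :=
  ∑ j : Fin 11, if s (pA j) ≠ (if j = 10 then c' else s (pB j)) then y j else 0

theorem cut_eq (n b : ℕ) (g : Ed n b → ℕ) (S : Fin (n + 2) × Fin 8 → Bool) :
    cutw (eA n b) (eB n b) g S =
      ∑ i, blk (fun j => ∑ t, g (i, ⟨j, t⟩)) (fun v => S (i, v)) (S (i + 1, 0)) := by
  unfold cutw eA eB blk
  rw [Fintype.sum_prod_type]
  refine sum_congr rfl fun i _ => ?_
  rw [Fintype.sum_sigma]
  refine sum_congr rfl fun j _ => ?_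
  have h0 : S (if j = 10 then i + 1 else i, pB j) =
      (if j = 10 then S (i + 1, 0) else S (i, pB j)) := by
    split_ifs with h
    · subst h
      rfl
    · rfl
  simp only [h0]
  by_cases h : S (i, pA j) ≠ (if j = 10 then S (i + 1, 0) else S (i, pB j))
  · simp only [if_pos h]
  · simp only [if_neg h, sum_const_zero]

theorem blk_eq (y : Fin 11 → ℕ) (s0 s1 s2 s3 s4 s5 s6 s7 c' : Bool) :
    blk y ![s0, s1, s2, s3, s4, s5, s6, s7] c' =
      (if s1 ≠ s2 then y 0 else 0) + (if s1 ≠ s0 then y 1 else 0) + (if s2 ≠ s0 then y 2 else 0) +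
      (if s5 ≠ s6 then y 3 else 0) + (if s5 ≠ s7 then y 4 else 0) + (if s6 ≠ s7 then y 5 else 0) +
      (if s1 ≠ s3 then y 6 else 0) + (if s3 ≠ s5 then y 7 else 0) +
      (if s2 ≠ s4 then y 8 else 0) + (if s4 ≠ s6 then y 9 else 0) +
      (if s7 ≠ c' then y 10 else 0) := by
  unfold blk
  rw [Fin.sum_univ_castSucc, Fin.sum_univ_castSucc, Fin.sum_univ_castSucc, Fin.sum_univ_eight]
  rfl

theorem vec (S : Fin 8 → Bool) : S = ![S 0, S 1, S 2, S 3, S 4, S 5, S 6, S 7] := by
  funext v
  fin_cases v <;> rfl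

theorem tri {b : ℕ} (s t u : Bool) (h : ¬ (s = t ∧ s = u)) :
    2 * b ≤ (if s ≠ t then b else 0) + (if s ≠ u then b else 0) + (if t ≠ u then b else 0) := by
  cases s <;> cases t <;> cases u <;> simp at h ⊢ <;> omega

theorem rung_ne {a : ℕ} (s m t : Bool) (h : s ≠ t) :
    a ≤ (if s ≠ m then a else 0) + (if m ≠ t then a else 0) := by
  cases s <;> cases t <;> cases m <;> simp at h ⊢

theorem rung_mid {a : ℕ} (s m t : Bool) (h : s = t) (h' : s ≠ m) :
    2 * a ≤ (if s ≠ m then a else 0) + (if m ≠ t then a else 0) := by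
  subst h
  cases s <;> cases m <;> simp at h' ⊢ <;> omega

/-- The block cut when `c` and `g` differ. -/
theorem inner (b : ℕ) (s0 s1 s2 s3 s4 s5 s6 s7 : Bool) (h : s0 ≠ s7) :
    2 * b ≤ (if s1 ≠ s2 then b else 0) + (if s1 ≠ s0 then b else 0) + (if s2 ≠ s0 then b else 0) +
      (if s5 ≠ s6 then b else 0) + (if s5 ≠ s7 then b else 0) + (if s6 ≠ s7 then b else 0) +
      (if s1 ≠ s3 then 2 * b else 0) + (if s3 ≠ s5 then 2 * b else 0) +
      (if s2 ≠ s4 then 2 * b else 0) + (if s4 ≠ s6 then 2 * b else 0) := by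
  by_cases h1 : s1 = s2 ∧ s1 = s0
  · by_cases h2 : s5 = s6 ∧ s5 = s7
    · have h3 : s1 ≠ s5 := by
        rw [h1.2, h2.2]
        exact h
      have := rung_ne (a := 2 * b) s1 s3 s5 h3
      omega
    · have := tri (b := b) s5 s6 s7 h2
      omega
  · have := tri (b := b) s1 s2 s0 h1
    omega

theorem blk_ne (b : ℕ) (s : Fin 8 → Bool) (c' : Bool) (h : s 0 ≠ c') :
    2 * b ≤ blk (mu b) s c' := by
  rw [vec s, blk_eq]
  generalize s 0 = s0 at h ⊢
  generalize s 1 = s1
  generalize s 2 = s2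
  generalize s 3 = s3
  generalize s 4 = s4
  generalize s 5 = s5
  generalize s 6 = s6
  generalize s 7 = s7
  change 2 * b ≤ (if s1 ≠ s2 then b else 0) + (if s1 ≠ s0 then b else 0) +
      (if s2 ≠ s0 then b else 0) +
      (if s5 ≠ s6 then b else 0) + (if s5 ≠ s7 then b else 0) + (if s6 ≠ s7 then b else 0) +
      (if s1 ≠ s3 then 2 * b else 0) + (if s3 ≠ s5 then 2 * b else 0) +
      (if s2 ≠ s4 then 2 * b else 0) + (if s4 ≠ s6 then 2 * b else 0) +
      (if s7 ≠ c' then 2 * b else 0)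
  by_cases h7 : s7 = c'
  · have := inner b s0 s1 s2 s3 s4 s5 s6 s7 (by rw [h7]; exact h)
    omega
  · rw [if_pos h7]
    omega

theorem blk_nc (b : ℕ) (s : Fin 8 → Bool) (c' : Bool) (h : s 0 = c') (hs : NC s) :
    4 * b ≤ blk (mu b) s c' := by
  obtain ⟨u, v, huv⟩ := hs
  rw [vec s] at huv
  rw [vec s, blk_eq]
  generalize s 0 = s0 at h huv ⊢
  generalize s 1 = s1 at huv ⊢
  generalize s 2 = s2 at huv ⊢
  generalize s 3 = s3 at huv ⊢
  generalize s 4 = s4 at huv ⊢
  generalize s 5 = s5 at huv ⊢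
  generalize s 6 = s6 at huv ⊢
  generalize s 7 = s7 at huv ⊢
  subst h
  change 4 * b ≤ (if s1 ≠ s2 then b else 0) + (if s1 ≠ s0 then b else 0) +
      (if s2 ≠ s0 then b else 0) +
      (if s5 ≠ s6 then b else 0) + (if s5 ≠ s7 then b else 0) + (if s6 ≠ s7 then b else 0) +
      (if s1 ≠ s3 then 2 * b else 0) + (if s3 ≠ s5 then 2 * b else 0) +
      (if s2 ≠ s4 then 2 * b else 0) + (if s4 ≠ s6 then 2 * b else 0) +
      (if s7 ≠ s0 then 2 * b else 0)
  have hne : ¬ (s0 = s1 ∧ s1 = s2 ∧ s2 = s3 ∧ s3 = s4 ∧ s4 = s5 ∧ s5 = s6 ∧ s6 = s7) := by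
    rintro ⟨rfl, rfl, rfl, rfl, rfl, rfl, rfl⟩
    apply huv
    fin_cases u <;> fin_cases v <;> rfl
  by_cases h7 : s7 = s0
  · subst h7
    by_cases h1 : s1 = s2 ∧ s1 = s7
    · obtain ⟨rfl, rfl⟩ := h1
      by_cases h2 : s5 = s6 ∧ s5 = s1
      · obtain ⟨rfl, rfl⟩ := h2
        by_cases h3 : s5 = s3
        · subst h3
          have h4 : s5 ≠ s4 := fun h4 => hne ⟨rfl, rfl, rfl, h4, h4.symm, rfl, rfl⟩
          have := rung_mid (a := 2 * b) s5 s4 s5 rfl h4
          omega
        · have := rung_mid (a := 2 * b) s5 s3 s5 rfl h3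
          omega
      · have h3 := tri (b := b) s5 s6 s1 h2
        by_cases h4 : s1 = s5
        · have h5 : s1 ≠ s6 := fun h5 => h2 ⟨h4.symm.trans h5, h4.symm⟩
          have := rung_ne (a := 2 * b) s1 s4 s6 h5
          omega
        · have := rung_ne (a := 2 * b) s1 s3 s5 h4
          omega
    · have h3 := tri (b := b) s1 s2 s7 h1
      by_cases h2 : s5 = s6 ∧ s5 = s7
      · obtain ⟨rfl, rfl⟩ := h2
        by_cases h4 : s1 = s5
        · have h5 : s2 ≠ s5 := fun h5 => h1 ⟨h4.trans h5.symm, h4⟩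
          have := rung_ne (a := 2 * b) s2 s4 s5 h5
          omega
        · have := rung_ne (a := 2 * b) s1 s3 s5 h4
          omega
      · have := tri (b := b) s5 s6 s7 h2
        omega
  · have := inner b s0 s1 s2 s3 s4 s5 s6 s7 (fun hh => h7 hh.symm)
    rw [if_pos h7]
    omega

theorem conn (n b : ℕ) (S : Fin (n + 2) × Fin 8 → Bool) (hS : NC S) :
    4 * b ≤ ∑ i, blk (mu b) (fun v => S (i, v)) (S (i + 1, 0)) := by
  classical
  by_cases hc : NC (fun i : Fin (n + 2) => S (i, 0))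
  · have h2 := two_changes _ hc
    have h3 : ∀ i ∈ (univ.filter (fun j : Fin (n + 2) => S (j, 0) ≠ S (j + 1, 0))),
        2 * b ≤ blk (mu b) (fun v => S (i, v)) (S (i + 1, 0)) := fun i hi =>
      blk_ne b _ _ (mem_filter.mp hi).2
    have h4 := card_nsmul_le_sum _ _ _ h3
    rw [smul_eq_mul] at h4
    have h5 : ∑ i ∈ (univ.filter (fun j : Fin (n + 2) => S (j, 0) ≠ S (j + 1, 0))),
        blk (mu b) (fun v => S (i, v)) (S (i + 1, 0)) ≤
        ∑ i, blk (mu b) (fun v => S (i, v)) (S (i + 1, 0)) :=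
      sum_le_sum_of_subset (filter_subset _ _)
    have h6 : 2 * (2 * b) ≤
        (univ.filter (fun j : Fin (n + 2) => S (j, 0) ≠ S (j + 1, 0))).card * (2 * b) :=
      Nat.mul_le_mul_right _ h2
    omega
  · have hc' : ∀ i j : Fin (n + 2), S (i, 0) = S (j, 0) := by
      intro i j
      by_contra hij
      exact hc ⟨i, j, hij⟩
    obtain ⟨⟨i, u⟩, ⟨j, v⟩, huv⟩ := hS
    have h1 : ∃ i, NC (fun v => S (i, v)) := by
      by_contra hcon
      push Not at hcon
      have h2 : ∀ i v, S (i, v) = S (i, 0) := by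
        intro i v
        by_contra h3
        exact hcon i ⟨v, 0, h3⟩
      exact huv ((h2 i u).trans ((hc' i j).trans (h2 j v).symm))
    obtain ⟨i0, h0⟩ := h1
    exact (blk_nc b _ _ (hc' _ _) h0).trans
      (single_le_sum (f := fun i => blk (mu b) (fun v => S (i, v)) (S (i + 1, 0)))
        (fun _ _ => Nat.zero_le _) (mem_univ i0))

theorem blk_const (y : Fin 11 → ℕ) (c : Bool) : blk y (fun _ => c) c = 0 := by
  unfold blk
  refine sum_eq_zero fun j _ => ?_
  rw [if_neg]
  split_ifs <;> simp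

/-- The cut conditions of a class. -/
def Cl (n l : ℕ) (y : Fin (n + 2) → Fin 11 → ℕ) : Prop :=
  ∀ S : Fin (n + 2) × Fin 8 → Bool, NC S →
    l ≤ ∑ i, blk (y i) (fun v => S (i, v)) (S (i + 1, 0))

theorem loc {n l : ℕ} {y : Fin (n + 2) → Fin 11 → ℕ} (H : Cl n l y) (i0 : Fin (n + 2))
    (s : Fin 8 → Bool) (h0 : s 0 = false) (hs : NC s) : l ≤ blk (y i0) s false := by
  classical
  let S : Fin (n + 2) × Fin 8 → Bool := fun p => if p.1 = i0 then s p.2 else false
  have hS : ∀ v, S (i0, v) = s v := fun v => if_pos rfl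
  have hS' : ∀ i, i ≠ i0 → ∀ v, S (i, v) = false := fun i hi v => if_neg hi
  have hc : ∀ i, S (i + 1, 0) = false := by
    intro i
    by_cases h : i + 1 = i0
    · rw [h, hS]
      exact h0
    · exact hS' _ h 0
  obtain ⟨u, v, huv⟩ := hs
  have h1 := H S ⟨(i0, u), (i0, v), by rw [hS, hS]; exact huv⟩
  have h2 : ∑ i, blk (y i) (fun v => S (i, v)) (S (i + 1, 0)) = blk (y i0) s false := by
    rw [sum_eq_single i0]
    · rw [hc]
      have : (fun v => S (i0, v)) = s := funext hS
      rw [this]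
    · intro i _ hi
      rw [hc]
      have : (fun v => S (i, v)) = fun _ => false := funext (hS' i hi)
      rw [this]
      exact blk_const _ _
    · intro hh
      exact absurd (mem_univ _) hh
  rw [h2] at h1
  exact h1

theorem arcs {n l : ℕ} {y : Fin (n + 2) → Fin 11 → ℕ} (H : Cl n l y) {i j : Fin (n + 2)}
    (hij : i < j) (s t : Fin 8 → Bool) (h0 : s 0 = false) (h1 : t 0 = true) :
    l ≤ blk (y i) s true + blk (y j) t false := by
  classical
  let S : Fin (n + 2) × Fin 8 → Bool := fun p =>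
    if p.1 = i then s p.2 else if p.1 = j then t p.2 else CycleL.arc i j p.1
  have hSi : ∀ v, S (i, v) = s v := fun v => if_pos rfl
  have hSj : ∀ v, S (j, v) = t v := fun v => (if_neg hij.ne').trans (if_pos rfl)
  have hSo : ∀ w, w ≠ i → w ≠ j → ∀ v, S (w, v) = CycleL.arc i j w := fun w h2 h3 v =>
    (if_neg h2).trans (if_neg h3)
  have ai : CycleL.arc i j i = false := by
    unfold CycleL.arc
    simp
  have aj : CycleL.arc i j j = true := by
    unfold CycleL.arc
    simp [hij]
  have hc : ∀ w, S (w, 0) = CycleL.arc i j w := by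
    intro w
    by_cases h2 : w = i
    · rw [h2, hSi, ai]
      exact h0
    · by_cases h3 : w = j
      · rw [h3, hSj, aj]
        exact h1
      · exact hSo w h2 h3 0
  have hlt : i.val < j.val := hij
  have hjn := j.isLt
  have ai1 : CycleL.arc i j (i + 1) = true := by
    have hv : (i + 1).val = i.val + 1 := by
      rw [Fin.val_add]
      simp only [Fin.val_one]
      rw [Nat.mod_eq_of_lt (by omega)]
    unfold CycleL.arc
    rw [decide_eq_true_eq, Fin.lt_def, Fin.le_def, hv]
    omega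
  have aj1 : CycleL.arc i j (j + 1) = false := by
    unfold CycleL.arc
    rw [decide_eq_false_iff_not, Fin.lt_def, Fin.le_def]
    have hv : (j + 1).val = (j.val + 1) % (n + 2) := by
      rw [Fin.val_add]
      simp only [Fin.val_one]
    rw [hv]
    rcases Nat.lt_or_ge (j.val + 1) (n + 2) with h2 | h2
    · rw [Nat.mod_eq_of_lt h2]
      omega
    · have h3 : j.val + 1 = n + 2 := by omega
      rw [h3, Nat.mod_self]
      omega
  have h2 := H S ⟨(i, 0), (j, 0), by rw [hc, hc, ai, aj]; decide⟩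
  have h3 : ∑ w, blk (y w) (fun v => S (w, v)) (S (w + 1, 0)) =
      blk (y i) s true + blk (y j) t false := by
    rw [sum_eq_add i j hij.ne]
    · rw [hc (i + 1), hc (j + 1), ai1, aj1]
      have e1 : (fun v => S (i, v)) = s := funext hSi
      have e2 : (fun v => S (j, v)) = t := funext hSj
      rw [e1, e2]
    · intro w _ hw
      have e1 : CycleL.arc i j w = CycleL.arc i j (w + 1) := by
        by_contra hne
        rcases CycleL.arc_changes i j hij w hne with h4 | h4
        · exact hw.1 h4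
        · exact hw.2 h4
      rw [hc (w + 1), ← e1]
      have e2 : (fun v => S (w, v)) = fun _ => CycleL.arc i j w := funext (hSo w hw.1 hw.2)
      rw [e2]
      exact blk_const _ _
    · intro hh
      exact absurd (mem_univ _) hh
    · intro hh
      exact absurd (mem_univ _) hh
  rw [h3] at h2
  exact h2

/-- The two ring cuts of a block. -/
def rC (y : Fin 11 → ℕ) : ℕ := y 1 + y 2

def rG (y : Fin 11 → ℕ) : ℕ := y 4 + y 5

theorem ring {n l : ℕ} {y : Fin (n + 2) → Fin 11 → ℕ} (H : Cl n l y) {i j : Fin (n + 2)}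
    (hij : i < j) : l ≤ rC (y i) + rC (y j) ∧ l ≤ rC (y i) + rG (y j) ∧
      l ≤ rG (y i) + rC (y j) ∧ l ≤ rG (y i) + rG (y j) := by
  have a1 := arcs H hij ![false, true, true, true, true, true, true, true]
    ![true, false, false, false, false, false, false, false] rfl rfl
  have a2 := arcs H hij ![false, true, true, true, true, true, true, true]
    ![true, true, true, true, true, true, true, false] rfl rfl
  have a3 := arcs H hij ![false, false, false, false, false, false, false, true]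
    ![true, false, false, false, false, false, false, false] rfl rfl
  have a4 := arcs H hij ![false, false, false, false, false, false, false, true]
    ![true, true, true, true, true, true, true, false] rfl rfl
  rw [blk_eq, blk_eq] at a1 a2 a3 a4
  simp at a1 a2 a3 a4
  unfold rC rG
  omega

/-- The gain of a part. -/
def gn (l : ℕ) : ℕ := if l % 2 = 1 then 3 else if l % 4 = 2 then 2 else 0

/-- The weight of a block. -/
def cost (y : Fin 11 → ℕ) : ℕ :=
  2 * (y 0 + y 1 + y 2 + (y 3 + y 4 + y 5)) + (y 6 + y 7 + (y 8 + y 9))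

theorem rung_gain {h p q A M : ℕ} (h1 : 2 * h ≤ p + A) (h2 : 2 * h ≤ q + M) (h3 : 2 * h ≤ A + M)
    (h4 : 2 * h ≤ p + M) (h5 : 2 * h ≤ q + A) (h6 : 2 * h ≤ p + q) :
    2 * h + p + q ≤ p + q + A + M ∧ 4 * h + q ≤ p + q + A + M + p ∧
    4 * h + p ≤ p + q + A + M + q ∧ 6 * h ≤ p + q + A + M + (p + q) := by
  refine ⟨by omega, by omega, by omega, by omega⟩

theorem fin {h E P Q C G u v : ℕ} (ho : h % 2 = 1) (h1 : 4 * h + (P + Q) ≤ E)
    (h2 : 8 * h + Q ≤ E + P) (h3 : 8 * h + P ≤ E + Q) (h4 : 12 * h ≤ E + (P + Q))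
    (hC : h ≤ C) (hG : h ≤ G) (eP : P = C + 2 * u) (eQ : Q = G + 2 * v) :
    10 * h + 2 ≤ E + C + G := by
  rcases Nat.lt_or_ge h C with c1 | c1
  · rcases Nat.lt_or_ge h G with c2 | c2
    · omega
    · have : Q ≠ 2 * h := by omega
      rcases Nat.lt_or_gt_of_ne this with c3 | c3
      · omega
      · omega
  · have hP : P ≠ 2 * h := by omega
    rcases Nat.lt_or_ge h G with c2 | c2
    · rcases Nat.lt_or_gt_of_ne hP with c3 | c3
      · omega
      · omega
    · have hQ : Q ≠ 2 * h := by omega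
      rcases Nat.lt_or_gt_of_ne hP with c3 | c3
      · rcases Nat.lt_or_gt_of_ne hQ with c4 | c4
        · omega
        · omega
      · rcases Nat.lt_or_gt_of_ne hQ with c4 | c4
        · omega
        · omega

theorem rung_odd {l p q A M : ℕ} (h1 : l ≤ p + A) (h2 : l ≤ q + M) (h3 : l ≤ A + M)
    (h4 : l ≤ p + M) (h5 : l ≤ q + A) (h6 : l ≤ p + q) :
    2 * l + l % 2 ≤ p + q + A + M := by
  omega

theorem block {n l : ℕ} {y : Fin (n + 2) → Fin 11 → ℕ} (H : Cl n l y) (i : Fin (n + 2)) :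
    5 * l ≤ cost (y i) ∧
      (l ≤ 2 * rC (y i) → l ≤ 2 * rG (y i) → 5 * l + gn l ≤ cost (y i)) := by
  -- rung 1
  have a1 := loc H i ![false, true, false, false, false, false, false, false] rfl
    ⟨0, 1, by decide⟩
  have a2 := loc H i ![false, false, false, true, false, false, false, false] rfl
    ⟨0, 3, by decide⟩
  have a3 := loc H i ![false, false, false, false, false, true, false, false] rfl
    ⟨0, 5, by decide⟩
  have a4 := loc H i ![false, true, false, true, false, false, false, false] rfl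
    ⟨0, 1, by decide⟩
  have a5 := loc H i ![false, false, false, true, false, true, false, false] rfl
    ⟨0, 3, by decide⟩
  have a6 := loc H i ![false, true, false, true, false, true, false, false] rfl
    ⟨0, 1, by decide⟩
  -- rung 2
  have b1 := loc H i ![false, false, true, false, false, false, false, false] rfl
    ⟨0, 2, by decide⟩
  have b2 := loc H i ![false, false, false, false, true, false, false, false] rfl
    ⟨0, 4, by decide⟩
  have b3 := loc H i ![false, false, false, false, false, false, true, false] rfl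
    ⟨0, 6, by decide⟩
  have b4 := loc H i ![false, false, true, false, true, false, false, false] rfl
    ⟨0, 2, by decide⟩
  have b5 := loc H i ![false, false, false, false, true, false, true, false] rfl
    ⟨0, 4, by decide⟩
  have b6 := loc H i ![false, false, true, false, true, false, true, false] rfl
    ⟨0, 2, by decide⟩
  -- both
  have c1 := loc H i ![false, true, true, true, true, true, true, false] rfl
    ⟨0, 1, by decide⟩
  rw [blk_eq] at a1 a2 a3 a4 a5 a6 b1 b2 b3 b4 b5 b6 c1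
  simp at a1 a2 a3 a4 a5 a6 b1 b2 b3 b4 b5 b6 c1
  have f1 : 0 < 1 := Nat.one_pos
  clear H
  unfold cost rC rG gn
  generalize y i 0 = y0 at *
  generalize y i 1 = y1 at *
  generalize y i 2 = y2 at *
  generalize y i 3 = y3 at *
  generalize y i 4 = y4 at *
  generalize y i 5 = y5 at *
  generalize y i 6 = y6 at *
  generalize y i 7 = y7 at *
  generalize y i 8 = y8 at *
  generalize y i 9 = y9 at *
  have A1 : l ≤ (y0 + y1) + y6 := by omega
  have A2 : l ≤ (y3 + y4) + y7 := by omega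
  have A3 : l ≤ y6 + y7 := by omega
  have A4 : l ≤ (y0 + y1) + y7 := by omega
  have A5 : l ≤ (y3 + y4) + y6 := by omega
  have A6 : l ≤ (y0 + y1) + (y3 + y4) := by omega
  have B1 : l ≤ (y0 + y2) + y8 := by omega
  have B2 : l ≤ (y3 + y5) + y9 := by omega
  have B3 : l ≤ y8 + y9 := by omega
  have B4 : l ≤ (y0 + y2) + y9 := by omega
  have B5 : l ≤ (y3 + y5) + y8 := by omega
  have B6 : l ≤ (y0 + y2) + (y3 + y5) := by omega
  have C1 : l ≤ (y1 + y2) + (y4 + y5) := by omega
  clear a1 a2 a3 a4 a5 a6 b1 b2 b3 b4 b5 b6 c1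
  have d1 := rung_odd A1 A2 A3 A4 A5 A6
  have d2 := rung_odd B1 B2 B3 B4 B5 B6
  refine ⟨?_, fun hC hG => ?_⟩
  · clear A1 A2 A3 A4 A5 A6 B1 B2 B3 B4 B5 B6
    omega
  split_ifs with h1 h2
  · clear A1 A2 A3 A4 A5 A6 B1 B2 B3 B4 B5 B6
    omega
  · obtain ⟨h, rfl⟩ : ∃ h, l = 2 * h := ⟨l / 2, by omega⟩
    have g1 := rung_gain A1 A2 A3 A4 A5 A6
    have g2 := rung_gain B1 B2 B3 B4 B5 B6
    clear A1 A2 A3 A4 A5 A6 B1 B2 B3 B4 B5 B6 d1 d2 C1
    obtain ⟨g11, g12, g13, g14⟩ := g1
    obtain ⟨g21, g22, g23, g24⟩ := g2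
    have g := fin (h := h) (E := (y0 + y1 + (y3 + y4) + y6 + y7) + (y0 + y2 + (y3 + y5) + y8 + y9))
      (P := y0 + y1 + (y0 + y2)) (Q := y3 + y4 + (y3 + y5)) (C := y1 + y2) (G := y4 + y5)
      (u := y0) (v := y3) (by clear g11 g12 g13 g14 g21 g22 g23 g24; omega) (by linarith)
      (by linarith) (by linarith) (by linarith) (by linarith) (by linarith)
      (by ring) (by ring)
    linarith
  · clear A1 A2 A3 A4 A5 A6 B1 B2 B3 B4 B5 B6
    omega

theorem total {n l : ℕ} {y : Fin (n + 2) → Fin 11 → ℕ} (H : Cl n l y) :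
    (n + 2) * (5 * l) + (n + 1) * gn l ≤ ∑ i, cost (y i) := by
  classical
  obtain ⟨i0, h0⟩ : ∃ i0, ∀ j, j ≠ i0 → l ≤ 2 * rC (y j) ∧ l ≤ 2 * rG (y j) := by
    by_cases hex : ∃ i0, ¬ (l ≤ 2 * rC (y i0) ∧ l ≤ 2 * rG (y i0))
    · obtain ⟨i0, hi0⟩ := hex
      refine ⟨i0, fun j hj => ?_⟩
      rcases lt_or_gt_of_ne hj with h1 | h1
      · have := ring H h1
        omega
      · have := ring H h1
        omega
    · push Not at hex
      exact ⟨0, fun j _ => hex j⟩
  rw [← add_sum_erase univ (fun i => cost (y i)) (mem_univ i0)]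
  have h1 := (block H i0).1
  have h2 : ∀ i ∈ univ.erase i0, 5 * l + gn l ≤ cost (y i) := fun i hi =>
    (block H i).2 (h0 i (mem_erase.mp hi).1).1 (h0 i (mem_erase.mp hi).1).2
  have h3 := card_nsmul_le_sum _ _ _ h2
  rw [card_erase_of_mem (mem_univ _), card_univ, Fintype.card_fin, smul_eq_mul] at h3
  have h4 : n + 2 - 1 = n + 1 := rfl
  rw [h4] at h3
  have h5 : (n + 2) * (5 * l) + (n + 1) * gn l = 5 * l + (n + 1) * (5 * l + gn l) := by ring
  rw [h5]
  exact Nat.add_le_add h1 h3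

theorem bound (n b r : ℕ) (ks : Fin r → ℕ) (h : Arrow (4 * b) ks) :
    ∑ i, ((n + 2) * (5 * ks i) + (n + 1) * gn (ks i)) ≤ (n + 2) * (20 * b) := by
  classical
  let G : MGraph (Fin (n + 2) × Fin 8) (Ed n b) :=
    ⟨fun e => s(eA n b e, eB n b e), fun e => by
      rw [Sym2.mk_isDiag_iff]
      intro he
      exact ne e.2.1 (congrArg Prod.snd he)⟩
  have hG : G.EdgeConnected Set.univ (4 * b) := by
    refine edgeConnected_of_cuts (eA n b) (eB n b) (fun _ => rfl) Set.univ _
      (fun _ => 1) (fun _ => le_rfl) (fun e he => absurd (Set.mem_univ e) he) ?_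
    intro S hS
    rw [cut_eq]
    have h1 : (fun j : Fin 11 => ∑ _t : Fin (mu b j), 1) = mu b := by
      funext j
      simp
    simp only [h1]
    exact conn n b S hS
  obtain ⟨c, hc⟩ := h _ _ G hG
  set Y : Fin r → Fin (n + 2) → Fin 11 → ℕ := fun i v j =>
    ∑ t, if c (v, ⟨j, t⟩) = i then 1 else 0 with hY
  have key : ∀ i, (n + 2) * (5 * ks i) + (n + 1) * gn (ks i) ≤ ∑ v, cost (Y i v) := by
    intro i
    refine total fun S hS => ?_
    have h5 := cut_ge (hc i) (eA n b) (eB n b) (fun _ => rfl)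
      (fun e => if c e = i then 1 else 0) (by
        intro e he
        have he' : c e = i := he
        simp [he']) S hS
    rw [cut_eq] at h5
    exact h5
  have tot : ∀ v j, ∑ i, Y i v j = mu b j := by
    intro v j
    simp only [hY]
    rw [sum_comm]
    have h6 : ∀ t : Fin (mu b j), ∑ i : Fin r, (if c (v, ⟨j, t⟩) = i then 1 else 0) = 1 := by
      intro t
      rw [sum_ite_eq, if_pos (mem_univ _)]
    simp only [h6, sum_const, card_univ, Fintype.card_fin, smul_eq_mul, mul_one]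
  refine (sum_le_sum fun i _ => key i).trans ?_
  rw [sum_comm]
  have h7 : ∀ v ∈ (univ : Finset (Fin (n + 2))), ∑ i, cost (Y i v) = 20 * b := by
    intro v _
    unfold cost
    rw [sum_add_distrib, ← mul_sum]
    simp only [sum_add_distrib]
    rw [tot v 0, tot v 1, tot v 2, tot v 3, tot v 4, tot v 5, tot v 6, tot v 7, tot v 8, tot v 9]
    change 2 * (b + b + b + (b + b + b)) + (2 * b + 2 * b + (2 * b + 2 * b)) = 20 * b
    omega
  rw [sum_congr rfl h7, sum_const, card_univ, Fintype.card_fin, smul_eq_mul]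

/-- **Gains of the parts:** `3 / 5` for an odd part, `2 / 5` for a part that is `2` modulo `4`. -/
theorem gains (k r : ℕ) (ks : Fin r → ℕ) (h : Arrow k ks) :
    ∑ i, (5 * ks i + gn (ks i)) ≤ 5 * k + 15 := by
  have h1 : Arrow (4 * ((k + 3) / 4)) ks := arrow_mono (by omega) h
  have h2 := bound (∑ i, gn (ks i)) ((k + 3) / 4) r ks h1
  rw [sum_add_distrib, ← mul_sum, ← mul_sum, ← mul_sum] at h2
  rw [sum_add_distrib, ← mul_sum]
  set X := ∑ i, gn (ks i)
  set A := ∑ i, ks i
  have h3 : 20 * ((k + 3) / 4) ≤ 5 * k + 15 := by omega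
  set B := 20 * ((k + 3) / 4)
  have h4 : 5 * A + X ≤ B := by
    by_contra hcon
    have h5 : B + 1 ≤ 5 * A + X := by omega
    have h6 := Nat.mul_le_mul_left (X + 2) h5
    nlinarith
  omega

end Pool.Agent.Lib.MP_21a058_co.Neck21
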