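import Pool.Agent.Lib.MP_21a058_co.CycleL

/-! A lower bound from the thick triangular prism: rungs of multiplicity `a`, edges of the two
triangles of multiplicity `b`. -/

set_option autoImplicit false

namespace Pool.Agent.Lib.MP_21a058_co.Prism

open Finset Pool.Agent.Lib.MP_21a058_co

/-- First ends: rungs, first triangle, second triangle. -/
def pA (j : Fin 9) : Fin 6 := ![0, 1, 2, 0, 1, 2, 3, 4, 5] j

/-- Second ends. -/
def pB (j : Fin 9) : Fin 6 := ![3, 4, 5, 1, 2, 0, 4, 5, 3] j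

/-- Multiplicities. -/
def mu (a b : ℕ) (j : Fin 9) : ℕ := if j.val < 3 then a else b

theorem ne : ∀ j, pA j ≠ pB j := by decide

/-- The edges. -/
abbrev Ed (a b : ℕ) : Type := Σ j : Fin 9, Fin (mu a b j)

def eA (a b : ℕ) (e : Ed a b) : Fin 6 := pA e.1

def eB (a b : ℕ) (e : Ed a b) : Fin 6 := pB e.1

theorem cut_eq (a b : ℕ) (g : Ed a b → ℕ) (S : Fin 6 → Bool) :
    cutw (eA a b) (eB a b) g S =
      ∑ j : Fin 9, if S (pA j) ≠ S (pB j) then ∑ t, g ⟨j, t⟩ else 0 := by
  unfold cutw eA eB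
  rw [Fintype.sum_sigma]
  refine sum_congr rfl fun j _ => ?_
  by_cases h : S (pA j) ≠ S (pB j)
  · simp only [if_pos h]
  · simp only [if_neg h, sum_const_zero]

/-- The number of crossing edges, for a skeleton with weights. -/
def sk (y : Fin 9 → ℕ) (S : Fin 6 → Bool) : ℕ := ∑ j : Fin 9, if S (pA j) ≠ S (pB j) then y j else 0

theorem sk_eq (y : Fin 9 → ℕ) (s0 s1 s2 s3 s4 s5 : Bool) :
    sk y ![s0, s1, s2, s3, s4, s5] =
      (if s0 ≠ s3 then y 0 else 0) + (if s1 ≠ s4 then y 1 else 0) + (if s2 ≠ s5 then y 2 else 0) +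
      (if s0 ≠ s1 then y 3 else 0) + (if s1 ≠ s2 then y 4 else 0) + (if s2 ≠ s0 then y 5 else 0) +
      (if s3 ≠ s4 then y 6 else 0) + (if s4 ≠ s5 then y 7 else 0) + (if s5 ≠ s3 then y 8 else 0) := by
  unfold sk
  rw [Fin.sum_univ_castSucc, Fin.sum_univ_eight]
  rfl

theorem vec (S : Fin 6 → Bool) : S = ![S 0, S 1, S 2, S 3, S 4, S 5] := by
  funext v
  fin_cases v <;> rfl

theorem conn {k a b : ℕ} (h1 : k ≤ a + 2 * b) (h2 : k ≤ 4 * b) (h3 : k ≤ 3 * a)
    (S : Fin 6 → Bool) (hS : NC S) : k ≤ sk (mu a b) S := by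
  obtain ⟨u, v, huv⟩ := hS
  rw [vec S] at huv ⊢
  generalize S 0 = s0 at huv ⊢
  generalize S 1 = s1 at huv ⊢
  generalize S 2 = s2 at huv ⊢
  generalize S 3 = s3 at huv ⊢
  generalize S 4 = s4 at huv ⊢
  generalize S 5 = s5 at huv ⊢
  rw [sk_eq]
  have m0 : mu a b 0 = a := rfl
  have m1 : mu a b 1 = a := rfl
  have m2 : mu a b 2 = a := rfl
  have m3 : mu a b 3 = b := rfl
  have m4 : mu a b 4 = b := rfl
  have m5 : mu a b 5 = b := rfl
  have m6 : mu a b 6 = b := rfl
  have m7 : mu a b 7 = b := rfl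
  have m8 : mu a b 8 = b := rfl
  rw [m0, m1, m2, m3, m4, m5, m6, m7, m8]
  have hne : ¬ (s0 = s1 ∧ s1 = s2 ∧ s2 = s3 ∧ s3 = s4 ∧ s4 = s5) := by
    rintro ⟨rfl, rfl, rfl, rfl, rfl⟩
    apply huv
    fin_cases u <;> fin_cases v <;> rfl
  cases s0 <;> cases s1 <;> cases s2 <;> cases s3 <;> cases s4 <;> cases s5 <;>
    first
    | exact absurd ⟨rfl, rfl, rfl, rfl, rfl⟩ hne
    | (simp; omega)

/-- The gain of a part. -/
def gn (l : ℕ) : ℕ := if l % 2 = 1 then 3 else if l % 4 = 2 then 2 else 0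

theorem gain_one (l : ℕ) (y : Fin 9 → ℕ) (h : ∀ S, NC S → l ≤ sk y S) :
    9 * l + gn l ≤ 2 * (y 0 + y 1 + y 2) +
      4 * (y 3 + y 4 + y 5 + (y 6 + y 7 + y 8)) := by
  have a0 := h ![true, false, false, false, false, false] ⟨0, 1, by decide⟩
  have a1 := h ![false, true, false, false, false, false] ⟨0, 1, by decide⟩
  have a2 := h ![false, false, true, false, false, false] ⟨0, 2, by decide⟩
  have a3 := h ![false, false, false, true, false, false] ⟨0, 3, by decide⟩
  have a4 := h ![false, false, false, false, true, false] ⟨0, 4, by decide⟩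
  have a5 := h ![false, false, false, false, false, true] ⟨0, 5, by decide⟩
  have b0 := h ![true, false, false, true, false, false] ⟨0, 1, by decide⟩
  have b1 := h ![false, true, false, false, true, false] ⟨0, 1, by decide⟩
  have b2 := h ![false, false, true, false, false, true] ⟨0, 2, by decide⟩
  rw [sk_eq] at a0 a1 a2 a3 a4 a5 b0 b1 b2
  simp at a0 a1 a2 a3 a4 a5 b0 b1 b2
  have c0 : (3 * l + 1) / 2 ≤ y 0 + (y 3 + y 5) + (y 6 + y 8) := by omega
  have c1 : (3 * l + 1) / 2 ≤ y 1 + (y 3 + y 4) + (y 6 + y 7) := by omega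
  have c2 : (3 * l + 1) / 2 ≤ y 2 + (y 4 + y 5) + (y 7 + y 8) := by omega
  unfold gn
  split_ifs <;> omega

theorem bound {k a b r : ℕ} {ks : Fin r → ℕ} (h : Arrow k ks) (h1 : k ≤ a + 2 * b)
    (h2 : k ≤ 4 * b) (h3 : k ≤ 3 * a) : ∑ i, (9 * ks i + gn (ks i)) ≤ 6 * a + 24 * b := by
  classical
  let G : MGraph (Fin 6) (Ed a b) :=
    ⟨fun e => s(eA a b e, eB a b e), fun e => by
      rw [Sym2.mk_isDiag_iff]
      exact ne e.1⟩
  have hG : G.EdgeConnected Set.univ k := by
    refine edgeConnected_of_cuts (eA a b) (eB a b) (fun _ => rfl) Set.univ _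
      (fun _ => 1) (fun _ => le_rfl) (fun e he => absurd (Set.mem_univ e) he) ?_
    intro S hS
    rw [cut_eq]
    simp only [sum_const, card_univ, Fintype.card_fin, smul_eq_mul, mul_one]
    exact conn h1 h2 h3 S hS
  obtain ⟨c, hc⟩ := h _ _ G hG
  set y : Fin r → Fin 9 → ℕ := fun i j => ∑ t, if c ⟨j, t⟩ = i then 1 else 0 with hy
  have key : ∀ i, 9 * ks i + gn (ks i) ≤ 2 * (y i 0 + y i 1 + y i 2) +
      4 * (y i 3 + y i 4 + y i 5 + (y i 6 + y i 7 + y i 8)) := by
    intro i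
    refine gain_one _ _ fun S hS => ?_
    have h4 := cut_ge (hc i) (eA a b) (eB a b) (fun _ => rfl)
      (fun e => if c e = i then 1 else 0) (by
        intro e he
        have he' : c e = i := he
        simp [he']) S hS
    rw [cut_eq] at h4
    exact h4
  have tot : ∀ j, ∑ i, y i j = mu a b j := by
    intro j
    simp only [hy]
    rw [sum_comm]
    have h6 : ∀ t : Fin (mu a b j), ∑ i : Fin r, (if c ⟨j, t⟩ = i then 1 else 0) = 1 := by
      intro t
      rw [sum_ite_eq, if_pos (mem_univ _)]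
    simp only [h6, sum_const, card_univ, Fintype.card_fin, smul_eq_mul, mul_one]
  refine (sum_le_sum fun i _ => key i).trans ?_
  rw [sum_add_distrib, ← mul_sum, ← mul_sum]
  simp only [sum_add_distrib]
  rw [tot 0, tot 1, tot 2, tot 3, tot 4, tot 5, tot 6, tot 7, tot 8]
  have m0 : mu a b 0 = a := rfl
  have m1 : mu a b 1 = a := rfl
  have m2 : mu a b 2 = a := rfl
  have m3 : mu a b 3 = b := rfl
  have m4 : mu a b 4 = b := rfl
  have m5 : mu a b 5 = b := rfl
  have m6 : mu a b 6 = b := rfl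
  have m7 : mu a b 7 = b := rfl
  have m8 : mu a b 8 = b := rfl
  rw [m0, m1, m2, m3, m4, m5, m6, m7, m8]
  omega

/-- **Gains of the parts:** 3 for an odd part, 2 for a part that is `2` modulo `4`. -/
theorem gains (k r : ℕ) (ks : Fin r → ℕ) (h : Arrow k ks) :
    ∑ i, (9 * ks i + gn (ks i)) ≤ 9 * k + 15 := by
  have h4 : ∀ m, Arrow (4 * m) ks → ∑ i, (9 * ks i + gn (ks i)) ≤ 36 * m := by
    intro m hm
    have := bound (a := 2 * m) (b := m) hm (by omega) (by omega) (by omega)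
    omega
  have h2 : ∀ m, Arrow (4 * m + 2) ks → ∑ i, (9 * ks i + gn (ks i)) ≤ 36 * m + 24 := by
    intro m hm
    rcases Nat.eq_zero_or_pos m with h0 | h0
    · subst h0
      have h5 := CycleL.cycle_bound _ r ks hm
      have h6 : ∑ i, (9 * ks i + gn (ks i)) ≤ 20 * ∑ i, (ks i + 1) / 2 := by
        rw [mul_sum]
        refine sum_le_sum fun i _ => ?_
        unfold gn
        split_ifs <;> omega
      omega
    · have := bound (a := 2 * m) (b := m + 1) hm (by omega) (by omega) (by omega)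
      omega
  obtain ⟨m, hm⟩ : ∃ m, k = 4 * m ∨ k = 4 * m + 1 ∨ k = 4 * m + 2 ∨ k = 4 * m + 3 :=
    ⟨k / 4, by omega⟩
  rcases hm with hm | hm | hm | hm
  · have := h4 m (hm ▸ h)
    omega
  · have := h2 m (arrow_mono (by omega) h)
    omega
  · have := h2 m (hm ▸ h)
    omega
  · have := h4 (m + 1) (arrow_mono (by omega) h)
    omega

end Pool.Agent.Lib.MP_21a058_co.Prism
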