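import Pool.Agent.Lib.MP_21a058_co.CycleL

/-! A lower bound from the thick triangular prism with subdivided rungs: half rungs of
multiplicity about `k / 2`, edges of the two triangles of multiplicity about `k / 4`. -/

set_option autoImplicit false

namespace Pool.Agent.Lib.MP_21a058_co.Sub21

open Finset Pool.Agent.Lib.MP_21a058_co

/-- First ends: upper half rungs, lower half rungs, first triangle, second triangle. The vertices
`0, 1, 2` and `3, 4, 5` are the two triangles, `6, 7, 8` the midpoints of the rungs. -/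
def pA (j : Fin 12) : Fin 9 := ![0, 1, 2, 3, 4, 5, 0, 1, 2, 3, 4, 5] j

/-- Second ends. -/
def pB (j : Fin 12) : Fin 9 := ![6, 7, 8, 6, 7, 8, 1, 2, 0, 4, 5, 3] j

theorem ne : ∀ j, pA j ≠ pB j := by decide

/-- The edges, with multiplicities `mu`. -/
abbrev Ed (mu : Fin 12 → ℕ) : Type := Σ j : Fin 12, Fin (mu j)

def eA (mu : Fin 12 → ℕ) (e : Ed mu) : Fin 9 := pA e.1

def eB (mu : Fin 12 → ℕ) (e : Ed mu) : Fin 9 := pB e.1

theorem cut_eq (mu : Fin 12 → ℕ) (g : Ed mu → ℕ) (S : Fin 9 → Bool) :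
    cutw (eA mu) (eB mu) g S =
      ∑ j : Fin 12, if S (pA j) ≠ S (pB j) then ∑ t, g ⟨j, t⟩ else 0 := by
  unfold cutw eA eB
  rw [Fintype.sum_sigma]
  refine sum_congr rfl fun j _ => ?_
  by_cases h : S (pA j) ≠ S (pB j)
  · simp only [if_pos h]
  · simp only [if_neg h, sum_const_zero]

/-- The number of crossing edges, for a skeleton with weights. -/
def sk (y : Fin 12 → ℕ) (S : Fin 9 → Bool) : ℕ :=
  ∑ j : Fin 12, if S (pA j) ≠ S (pB j) then y j else 0

theorem sk_eq (y : Fin 12 → ℕ) (s0 s1 s2 s3 s4 s5 s6 s7 s8 : Bool) :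
    sk y ![s0, s1, s2, s3, s4, s5, s6, s7, s8] =
      (if s0 ≠ s6 then y 0 else 0) + (if s1 ≠ s7 then y 1 else 0) + (if s2 ≠ s8 then y 2 else 0) +
      (if s3 ≠ s6 then y 3 else 0) + (if s4 ≠ s7 then y 4 else 0) + (if s5 ≠ s8 then y 5 else 0) +
      (if s0 ≠ s1 then y 6 else 0) + (if s1 ≠ s2 then y 7 else 0) + (if s2 ≠ s0 then y 8 else 0) +
      (if s3 ≠ s4 then y 9 else 0) + (if s4 ≠ s5 then y 10 else 0) +
      (if s5 ≠ s3 then y 11 else 0) := by
  unfold sk
  rw [Fin.sum_univ_castSucc, Fin.sum_univ_castSucc, Fin.sum_univ_castSucc,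
    Fin.sum_univ_castSucc, Fin.sum_univ_eight]
  rfl

theorem vec (S : Fin 9 → Bool) : S = ![S 0, S 1, S 2, S 3, S 4, S 5, S 6, S 7, S 8] := by
  funext v
  fin_cases v <;> rfl

theorem tri {b x y z : ℕ} (h1 : b ≤ x + y) (h2 : b ≤ y + z) (h3 : b ≤ z + x) (s t u : Bool)
    (h : ¬ (s = t ∧ t = u)) :
    b ≤ (if s ≠ t then x else 0) + (if t ≠ u then y else 0) + (if u ≠ s then z else 0) := by
  cases s <;> cases t <;> cases u <;> simp at h ⊢ <;> omega

theorem rung_ne {a a1 a2 : ℕ} (h1 : a ≤ a1) (h2 : a ≤ a2) (s t m : Bool) (h : s ≠ t) :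
    a ≤ (if s ≠ m then a1 else 0) + (if t ≠ m then a2 else 0) := by
  cases s <;> cases t <;> cases m <;> simp at h ⊢ <;> omega

/-- The skeleton is `k`-edge-connected: half rungs `a1`, `a2` (both at least `a`), triangles with
all cuts at least `b`, `b'`. -/
theorem conn {k a a1 a2 b b' x y z x' y' z' : ℕ} (ha1 : a ≤ a1) (ha2 : a ≤ a2)
    (hx : b ≤ x + y) (hy : b ≤ y + z) (hz : b ≤ z + x)
    (hx' : b' ≤ x' + y') (hy' : b' ≤ y' + z') (hz' : b' ≤ z' + x')
    (h1 : k ≤ a + b) (h1' : k ≤ a + b') (h2 : k ≤ b + b') (h3 : k ≤ a1 + a2) (h4 : k ≤ 3 * a)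
    (S : Fin 9 → Bool) (hS : NC S) :
    k ≤ sk ![a1, a1, a1, a2, a2, a2, x, y, z, x', y', z'] S := by
  obtain ⟨u, v, huv⟩ := hS
  rw [vec S] at huv ⊢
  generalize S 0 = s0 at huv ⊢
  generalize S 1 = s1 at huv ⊢
  generalize S 2 = s2 at huv ⊢
  generalize S 3 = s3 at huv ⊢
  generalize S 4 = s4 at huv ⊢
  generalize S 5 = s5 at huv ⊢
  generalize S 6 = s6 at huv ⊢
  generalize S 7 = s7 at huv ⊢
  generalize S 8 = s8 at huv ⊢
  rw [sk_eq]
  change k ≤ (if s0 ≠ s6 then a1 else 0) + (if s1 ≠ s7 then a1 else 0) +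
      (if s2 ≠ s8 then a1 else 0) +
      (if s3 ≠ s6 then a2 else 0) + (if s4 ≠ s7 then a2 else 0) + (if s5 ≠ s8 then a2 else 0) +
      (if s0 ≠ s1 then x else 0) + (if s1 ≠ s2 then y else 0) + (if s2 ≠ s0 then z else 0) +
      (if s3 ≠ s4 then x' else 0) + (if s4 ≠ s5 then y' else 0) +
      (if s5 ≠ s3 then z' else 0)
  have hne : ¬ (s0 = s1 ∧ s1 = s2 ∧ s2 = s3 ∧ s3 = s4 ∧ s4 = s5 ∧ s5 = s6 ∧ s6 = s7 ∧
      s7 = s8) := by
    rintro ⟨rfl, rfl, rfl, rfl, rfl, rfl, rfl, rfl⟩
    apply huv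
    fin_cases u <;> fin_cases v <;> rfl
  clear huv
  by_cases hA : s0 = s1 ∧ s1 = s2
  · obtain ⟨rfl, rfl⟩ := hA
    by_cases hB : s3 = s4 ∧ s4 = s5
    · obtain ⟨rfl, rfl⟩ := hB
      by_cases hAB : s0 = s3
      · subst hAB
        have hm : s0 ≠ s6 ∨ s0 ≠ s7 ∨ s0 ≠ s8 := by
          by_contra hc
          push Not at hc
          exact hne ⟨rfl, rfl, rfl, rfl, rfl, hc.1, hc.1.symm.trans hc.2.1,
            hc.2.1.symm.trans hc.2.2⟩
        rcases hm with hm | hm | hm <;> simp only [if_pos hm] <;> omega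
      · have r0 := rung_ne ha1 ha2 s0 s3 s6 hAB
        have r1 := rung_ne ha1 ha2 s0 s3 s7 hAB
        have r2 := rung_ne ha1 ha2 s0 s3 s8 hAB
        omega
    · have t2 := tri hx' hy' hz' s3 s4 s5 hB
      have hx : s0 ≠ s3 ∨ s0 ≠ s4 ∨ s0 ≠ s5 := by
        by_contra hc
        push Not at hc
        exact hB ⟨hc.1.symm.trans hc.2.1, hc.2.1.symm.trans hc.2.2⟩
      rcases hx with hx | hx | hx
      · have := rung_ne ha1 ha2 _ _ s6 hx
        omega
      · have := rung_ne ha1 ha2 _ _ s7 hx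
        omega
      · have := rung_ne ha1 ha2 _ _ s8 hx
        omega
  · have t1 := tri hx hy hz s0 s1 s2 hA
    by_cases hB : s3 = s4 ∧ s4 = s5
    · obtain ⟨rfl, rfl⟩ := hB
      have hx : s0 ≠ s3 ∨ s1 ≠ s3 ∨ s2 ≠ s3 := by
        by_contra hc
        push Not at hc
        exact hA ⟨hc.1.trans hc.2.1.symm, hc.2.1.trans hc.2.2.symm⟩
      rcases hx with hx | hx | hx
      · have := rung_ne ha1 ha2 _ _ s6 hx
        omega
      · have := rung_ne ha1 ha2 _ _ s7 hx
        omega
      · have := rung_ne ha1 ha2 _ _ s8 hx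
        omega
    · have t2 := tri hx' hy' hz' s3 s4 s5 hB
      omega

/-- The gain of a part. -/
def gn (l : ℕ) : ℕ := if l % 2 = 1 then 3 else if l % 4 = 2 then 2 else 0

theorem gain_one (l : ℕ) (y : Fin 12 → ℕ) (h : ∀ S, NC S → l ≤ sk y S) :
    6 * l + gn l ≤ (y 0 + y 1 + y 2) + (y 3 + y 4 + y 5) +
      2 * (y 6 + y 7 + y 8 + (y 9 + y 10 + y 11)) := by
  -- vertices of the triangles
  have a0 := h ![true, false, false, false, false, false, false, false, false] ⟨0, 1, by decide⟩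
  have a1 := h ![false, true, false, false, false, false, false, false, false] ⟨0, 1, by decide⟩
  have a2 := h ![false, false, true, false, false, false, false, false, false] ⟨0, 2, by decide⟩
  have a3 := h ![false, false, false, true, false, false, false, false, false] ⟨0, 3, by decide⟩
  have a4 := h ![false, false, false, false, true, false, false, false, false] ⟨0, 4, by decide⟩
  have a5 := h ![false, false, false, false, false, true, false, false, false] ⟨0, 5, by decide⟩
  -- midpoints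
  have m0 := h ![false, false, false, false, false, false, true, false, false] ⟨0, 6, by decide⟩
  have m1 := h ![false, false, false, false, false, false, false, true, false] ⟨0, 7, by decide⟩
  have m2 := h ![false, false, false, false, false, false, false, false, true] ⟨0, 8, by decide⟩
  -- whole rungs
  have b0 := h ![true, false, false, true, false, false, true, false, false] ⟨0, 1, by decide⟩
  have b1 := h ![false, true, false, false, true, false, false, true, false] ⟨0, 1, by decide⟩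
  have b2 := h ![false, false, true, false, false, true, false, false, true] ⟨0, 2, by decide⟩
  -- half rungs
  have c0 := h ![true, false, false, false, false, false, true, false, false] ⟨0, 1, by decide⟩
  have c1 := h ![false, true, false, false, false, false, false, true, false] ⟨0, 1, by decide⟩
  have c2 := h ![false, false, true, false, false, false, false, false, true] ⟨0, 2, by decide⟩
  have c3 := h ![false, false, false, true, false, false, true, false, false] ⟨0, 3, by decide⟩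
  have c4 := h ![false, false, false, false, true, false, false, true, false] ⟨0, 4, by decide⟩
  have c5 := h ![false, false, false, false, false, true, false, false, true] ⟨0, 5, by decide⟩
  rw [sk_eq] at a0 a1 a2 a3 a4 a5 m0 m1 m2 b0 b1 b2 c0 c1 c2 c3 c4 c5
  simp at a0 a1 a2 a3 a4 a5 m0 m1 m2 b0 b1 b2 c0 c1 c2 c3 c4 c5
  have d0 : 2 * l + l % 2 ≤ y 0 + y 3 + (y 6 + y 8) + (y 9 + y 11) := by omega
  have d1 : 2 * l + l % 2 ≤ y 1 + y 4 + (y 6 + y 7) + (y 9 + y 10) := by omega
  have d2 : 2 * l + l % 2 ≤ y 2 + y 5 + (y 7 + y 8) + (y 10 + y 11) := by omega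
  unfold gn
  split_ifs with h1 h2
  · omega
  · omega
  · omega

theorem bound {k a a1 a2 b b' x y z x' y' z' r : ℕ} {ks : Fin r → ℕ} (h : Arrow k ks)
    (ha1 : a ≤ a1) (ha2 : a ≤ a2)
    (hx : b ≤ x + y) (hy : b ≤ y + z) (hz : b ≤ z + x)
    (hx' : b' ≤ x' + y') (hy' : b' ≤ y' + z') (hz' : b' ≤ z' + x')
    (h1 : k ≤ a + b) (h1' : k ≤ a + b') (h2 : k ≤ b + b') (h3 : k ≤ a1 + a2) (h4 : k ≤ 3 * a) :
    ∑ i, (6 * ks i + gn (ks i)) ≤ 3 * (a1 + a2) + 2 * (x + y + z + (x' + y' + z')) := by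
  classical
  let mu : Fin 12 → ℕ := ![a1, a1, a1, a2, a2, a2, x, y, z, x', y', z']
  let G : MGraph (Fin 9) (Ed mu) :=
    ⟨fun e => s(eA mu e, eB mu e), fun e => by
      rw [Sym2.mk_isDiag_iff]
      exact ne e.1⟩
  have hG : G.EdgeConnected Set.univ k := by
    refine edgeConnected_of_cuts (eA mu) (eB mu) (fun _ => rfl) Set.univ _
      (fun _ => 1) (fun _ => le_rfl) (fun e he => absurd (Set.mem_univ e) he) ?_
    intro S hS
    rw [cut_eq]
    simp only [sum_const, card_univ, Fintype.card_fin, smul_eq_mul, mul_one]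
    exact conn ha1 ha2 hx hy hz hx' hy' hz' h1 h1' h2 h3 h4 S hS
  obtain ⟨c, hc⟩ := h _ _ G hG
  set Y : Fin r → Fin 12 → ℕ := fun i j => ∑ t, if c ⟨j, t⟩ = i then 1 else 0 with hY
  have key : ∀ i, 6 * ks i + gn (ks i) ≤ (Y i 0 + Y i 1 + Y i 2) + (Y i 3 + Y i 4 + Y i 5) +
      2 * (Y i 6 + Y i 7 + Y i 8 + (Y i 9 + Y i 10 + Y i 11)) := by
    intro i
    refine gain_one _ _ fun S hS => ?_
    have h5 := cut_ge (hc i) (eA mu) (eB mu) (fun _ => rfl)
      (fun e => if c e = i then 1 else 0) (by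
        intro e he
        have he' : c e = i := he
        simp [he']) S hS
    rw [cut_eq] at h5
    exact h5
  have tot : ∀ j, ∑ i, Y i j = mu j := by
    intro j
    simp only [hY]
    rw [sum_comm]
    have h6 : ∀ t : Fin (mu j), ∑ i : Fin r, (if c ⟨j, t⟩ = i then 1 else 0) = 1 := by
      intro t
      rw [sum_ite_eq, if_pos (mem_univ _)]
    simp only [h6, sum_const, card_univ, Fintype.card_fin, smul_eq_mul, mul_one]
  refine (sum_le_sum fun i _ => key i).trans ?_
  rw [sum_add_distrib, ← mul_sum]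
  simp only [sum_add_distrib]
  rw [tot 0, tot 1, tot 2, tot 3, tot 4, tot 5, tot 6, tot 7, tot 8, tot 9, tot 10, tot 11]
  have m0 : mu 0 = a1 := rfl
  have m1 : mu 1 = a1 := rfl
  have m2 : mu 2 = a1 := rfl
  have m3 : mu 3 = a2 := rfl
  have m4 : mu 4 = a2 := rfl
  have m5 : mu 5 = a2 := rfl
  have m6 : mu 6 = x := rfl
  have m7 : mu 7 = y := rfl
  have m8 : mu 8 = z := rfl
  have m9 : mu 9 = x' := rfl
  have m10 : mu 10 = y' := rfl
  have m11 : mu 11 = z' := rfl
  rw [m0, m1, m2, m3, m4, m5, m6, m7, m8, m9, m10, m11]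
  omega

/-- **Gains of the parts:** `1 / 2` for an odd part, `1 / 3` for a part that is `2` modulo `4`. -/
theorem gains (k r : ℕ) (ks : Fin r → ℕ) (h : Arrow k ks) :
    ∑ i, (6 * ks i + gn (ks i)) ≤ 6 * k + 4 := by
  obtain ⟨m, hm⟩ : ∃ m, k = 4 * m ∨ k = 4 * m + 1 ∨ k = 4 * m + 2 ∨ k = 4 * m + 3 :=
    ⟨k / 4, by omega⟩
  rcases hm with hm | hm | hm | hm
  · subst hm
    have := bound (a := 2 * m) (a1 := 2 * m) (a2 := 2 * m) (b := 2 * m) (b' := 2 * m)
      (x := m) (y := m) (z := m) (x' := m) (y' := m) (z' := m) h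
      (by omega) (by omega) (by omega) (by omega) (by omega) (by omega) (by omega) (by omega)
      (by omega) (by omega) (by omega) (by omega) (by omega)
    omega
  · subst hm
    have := bound (a := 2 * m + 1) (a1 := 2 * m + 1) (a2 := 2 * m + 1) (b := 2 * m)
      (b' := 2 * m + 1) (x := m) (y := m) (z := m) (x' := m + 1) (y' := m) (z' := m + 1) h
      (by omega) (by omega) (by omega) (by omega) (by omega) (by omega) (by omega) (by omega)
      (by omega) (by omega) (by omega) (by omega) (by omega)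
    omega
  · subst hm
    have := bound (a := 2 * m + 1) (a1 := 2 * m + 1) (a2 := 2 * m + 1) (b := 2 * m + 1)
      (b' := 2 * m + 1) (x := m + 1) (y := m) (z := m + 1) (x' := m + 1) (y' := m)
      (z' := m + 1) h
      (by omega) (by omega) (by omega) (by omega) (by omega) (by omega) (by omega) (by omega)
      (by omega) (by omega) (by omega) (by omega) (by omega)
    omega
  · subst hm
    have := bound (a := 2 * m + 1) (a1 := 2 * m + 2) (a2 := 2 * m + 1) (b := 2 * m + 2)
      (b' := 2 * m + 2) (x := m + 1) (y := m + 1) (z := m + 1) (x' := m + 1) (y' := m + 1)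
      (z' := m + 1) h
      (by omega) (by omega) (by omega) (by omega) (by omega) (by omega) (by omega) (by omega)
      (by omega) (by omega) (by omega) (by omega) (by omega)
    omega

end Pool.Agent.Lib.MP_21a058_co.Sub21
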